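import Pool.Agent.R178.SL.Defs

set_option autoImplicit false

/-! Project SL (helper178, MP_8bc176_co), piece SL-1: the coordinate lemma. -/

namespace Pool.Agent.R178.SL.Coord

open Finset

/-- a sum of indicators of a property which holds at most once -/
theorem uniq_sum {n : ℕ} (P : Fin n → Prop) [DecidablePred P] (h : ∀ i j, P i → P j → i = j) :
    (∑ i, (if P i then (1 : ℝ) else 0)) = if ∃ i, P i then 1 else 0 := by
  split_ifs with hex
  · obtain ⟨i, hi⟩ := hex
    rw [Finset.sum_eq_single i]
    · rw [if_pos hi]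
    · intro j _ hj
      rw [if_neg]
      intro hPj
      exact hj (h j i hPj hi)
    · intro hi'
      exact absurd (Finset.mem_univ i) hi'
  · apply Finset.sum_eq_zero
    intro i _
    rw [if_neg]
    exact fun hi => hex ⟨i, hi⟩

/-- SL-1: the coordinate lemma -/
theorem coord : S_coord := by
  intro n x p hp hx hgen
  classical
  -- the ratio
  set L : Fin n → ℝ := fun i => x i / p i with hL
  have hLx : ∀ i, p i ≠ 0 → L i * p i = x i := fun i hi => div_mul_cancel₀ (x i) hi
  have hgen' : ∀ i j, i ≠ j → p i ≠ 0 → x j - L i * p j ≠ 0 := hgen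
  let E : Fin n → Prop := fun i => 0 < L i ∧ ∀ j, j ≠ i → 0 < x j - L i * p j
  -- two elementary facts
  have key1 : ∀ a b c : ℝ, 0 < c → 0 < b * c - a * c → a < b := by
    intro a b c hc h
    by_contra hab
    have := mul_le_mul_of_nonneg_right (not_lt.mp hab) hc.le
    linarith
  have key2 : ∀ a b c : ℝ, c < 0 → 0 < b * c - a * c → b < a := by
    intro a b c hc h
    by_contra hab
    have := mul_le_mul_of_nonpos_right (not_lt.mp hab) hc.le
    linarith
  have key3 : ∀ a b c : ℝ, 0 < c → a < b → 0 < b * c - a * c := by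
    intro a b c hc h
    have := mul_lt_mul_of_pos_right h hc
    linarith
  have key4 : ∀ a b c : ℝ, c < 0 → b < a → 0 < b * c - a * c := by
    intro a b c hc h
    have := mul_lt_mul_of_neg_right h hc
    linarith
  -- strict comparison of two ratios
  have hne : ∀ i j, i ≠ j → p i ≠ 0 → p j ≠ 0 → L i ≠ L j := by
    intro i j hij hi hj h
    apply hgen' i j hij hi
    rw [h, hLx j hj, sub_self]
  -- the values at an index `j` with `p j ≠ 0`
  have hpos : ∀ i j, 0 < p j → L i < L j → 0 < x j - L i * p j := by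
    intro i j hj h
    rw [← hLx j hj.ne']
    exact key3 _ _ _ hj h
  have hneg : ∀ i j, p j < 0 → L j < L i → 0 < x j - L i * p j := by
    intro i j hj h
    rw [← hLx j hj.ne]
    exact key4 _ _ _ hj h
  have hpos' : ∀ i j, 0 < p j → 0 < x j - L i * p j → L i < L j := by
    intro i j hj h
    rw [← hLx j hj.ne'] at h
    exact key1 _ _ _ hj h
  have hneg' : ∀ i j, p j < 0 → 0 < x j - L i * p j → L j < L i := by
    intro i j hj h
    rw [← hLx j hj.ne] at h
    exact key2 _ _ _ hj h
  -- uniqueness
  have hu1 : ∀ i j, (0 < p i ∧ E i) → (0 < p j ∧ E j) → i = j := by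
    rintro i j ⟨hpi, hEi⟩ ⟨hpj, hEj⟩
    by_contra hij
    have h1 := hpos' i j hpj (hEi.2 j (Ne.symm hij))
    have h2 := hpos' j i hpi (hEj.2 i hij)
    linarith
  have hu2 : ∀ i j, (p i < 0 ∧ E i) → (p j < 0 ∧ E j) → i = j := by
    rintro i j ⟨hpi, hEi⟩ ⟨hpj, hEj⟩
    by_contra hij
    have h1 := hneg' i j hpj (hEi.2 j (Ne.symm hij))
    have h2 := hneg' j i hpi (hEj.2 i hij)
    linarith
  -- the first index with positive direction
  have hmin : ∃ i, 0 < p i ∧ ∀ m, 0 < p m → L i ≤ L m := by
    obtain ⟨j, hj⟩ := hp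
    obtain ⟨i, hi, him⟩ := Finset.exists_min_image (univ.filter fun m => 0 < p m) L
      ⟨j, by simp [hj]⟩
    refine ⟨i, (Finset.mem_filter.mp hi).2, fun m hm => him m (by simp [hm])⟩
  obtain ⟨i₀, hi₀, hmin₀⟩ := hmin
  -- the sum
  have hsum : ∑ i, (if 0 < p i then (1 : ℝ) else if p i < 0 then -1 else 0) *
      (if 0 < x i / p i ∧ ∀ j, j ≠ i → 0 < x j - x i / p i * p j then 1 else 0) =
      (if ∃ i, 0 < p i ∧ E i then 1 else 0) - (if ∃ i, p i < 0 ∧ E i then 1 else 0) := by
    rw [← uniq_sum _ hu1, ← uniq_sum _ hu2, ← Finset.sum_sub_distrib]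
    apply Finset.sum_congr rfl
    intro i _
    have hE : (0 < x i / p i ∧ ∀ j, j ≠ i → 0 < x j - x i / p i * p j) ↔ E i := Iff.rfl
    by_cases hEi : E i
    · rw [if_pos (hE.mpr hEi), mul_one]
      rcases lt_trichotomy (p i) 0 with h | h | h
      · rw [if_neg (not_lt.mpr h.le), if_pos h, if_neg (fun hh => absurd hh.1 (not_lt.mpr h.le)),
          if_pos ⟨h, hEi⟩]
        ring
      · rw [if_neg (by rw [h]; exact lt_irrefl 0), if_neg (by rw [h]; exact lt_irrefl 0),
          if_neg (fun hh => absurd hh.1 (by rw [h]; exact lt_irrefl 0)),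
          if_neg (fun hh => absurd hh.1 (by rw [h]; exact lt_irrefl 0))]
        ring
      · rw [if_pos h, if_pos ⟨h, hEi⟩, if_neg (fun hh => absurd hh.1 (not_lt.mpr h.le))]
        ring
    · rw [if_neg (fun h => hEi (hE.mp h)), mul_zero,
        if_neg (fun hh : 0 < p i ∧ E i => hEi hh.2), if_neg (fun hh : p i < 0 ∧ E i => hEi hh.2),
        sub_zero]
  rw [hsum]
  by_cases hall : ∀ j, 0 < x j
  · -- all coordinates positive: one exit, no entrance
    rw [if_pos hall, if_pos, if_neg]
    · ring
    · rintro ⟨i, hpi, hEi⟩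
      have h1 : L i < 0 := div_neg_of_pos_of_neg (hall i) hpi
      exact absurd hEi.1 (not_lt.mpr h1.le)
    · have hLi : 0 < L i₀ := div_pos (hall i₀) hi₀
      refine ⟨i₀, hi₀, hLi, fun m hm => ?_⟩
      rcases lt_or_ge 0 (p m) with hpm | hpm
      · exact hpos i₀ m hpm (lt_of_le_of_ne (hmin₀ m hpm) (hne i₀ m (Ne.symm hm) hi₀.ne' hpm.ne'))
      · have h1 := mul_nonpos_of_nonneg_of_nonpos hLi.le hpm
        have h2 := hall m
        linarith
  · -- some coordinate is negative: an exit exists iff an entrance exists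
    rw [if_neg hall]
    have hiff : (∃ i, 0 < p i ∧ E i) ↔ (∃ i, p i < 0 ∧ E i) := by
      constructor
      · rintro ⟨i, hpi, hEi⟩
        obtain ⟨j, hj⟩ := not_forall.mp hall
        have hj' : x j < 0 := lt_of_le_of_ne (not_lt.mp hj) (hx j)
        have hxi : 0 < x i := by
          rw [← hLx i hpi.ne']
          exact mul_pos hEi.1 hpi
        have hji : j ≠ i := by
          rintro rfl
          exact absurd hxi (not_lt.mpr hj'.le)
        have hpj : p j < 0 := by
          by_contra hpj
          have h1 := mul_nonneg hEi.1.le (not_lt.mp hpj)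
          have h2 := hEi.2 j hji
          linarith
        have hLj : 0 < L j := div_pos_of_neg_of_neg hj' hpj
        obtain ⟨i', hi', hmax⟩ := Finset.exists_max_image (univ.filter fun m => p m < 0) L
          ⟨j, by simp [hpj]⟩
        have hpi' : p i' < 0 := (Finset.mem_filter.mp hi').2
        have hmax' : ∀ m, p m < 0 → L m ≤ L i' := fun m hm => hmax m (by simp [hm])
        have hii' : i' ≠ i := by
          rintro rfl
          exact absurd hpi (not_lt.mpr hpi'.le)
        have hLL : L i' < L i := hneg' i i' hpi' (hEi.2 i' hii')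
        refine ⟨i', hpi', lt_of_lt_of_le hLj (hmax' j hpj), fun m hm => ?_⟩
        rcases lt_trichotomy (p m) 0 with h | h | h
        · exact hneg i' m h (lt_of_le_of_ne (hmax' m h) (hne m i' hm h.ne hpi'.ne))
        · have hmi : m ≠ i := by
            rintro rfl
            rw [h] at hpi
            exact lt_irrefl 0 hpi
          have := hEi.2 m hmi
          rw [h, mul_zero] at this ⊢
          exact this
        · apply hpos i' m h
          by_cases hmi : m = i
          · rw [hmi]; exact hLL
          · exact lt_trans hLL (hpos' i m h (hEi.2 m hmi))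
      · rintro ⟨i', hpi', hEi'⟩
        have hii' : i₀ ≠ i' := by
          rintro rfl
          exact absurd hi₀ (not_lt.mpr hpi'.le)
        have hLL : L i' < L i₀ := hpos' i' i₀ hi₀ (hEi'.2 i₀ hii')
        refine ⟨i₀, hi₀, lt_trans hEi'.1 hLL, fun m hm => ?_⟩
        rcases lt_trichotomy (p m) 0 with h | h | h
        · apply hneg i₀ m h
          by_cases hmi : m = i'
          · rw [hmi]; exact hLL
          · exact lt_trans (hneg' i' m h (hEi'.2 m hmi)) hLL
        · have hmi : m ≠ i' := by
            rintro rfl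
            rw [h] at hpi'
            exact lt_irrefl 0 hpi'
          have := hEi'.2 m hmi
          rw [h, mul_zero] at this ⊢
          exact this
        · exact hpos i₀ m h
            (lt_of_le_of_ne (hmin₀ m h) (hne i₀ m (Ne.symm hm) hi₀.ne' h.ne'))
    by_cases hex : ∃ i, 0 < p i ∧ E i
    · rw [if_pos hex, if_pos (hiff.mp hex), sub_self]
    · rw [if_neg hex, if_neg (fun h => hex (hiff.mpr h)), sub_self]

end Pool.Agent.R178.SL.Coord
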