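import Pool.Agent.R178.SL.Defs

set_option autoImplicit false

/-! Project SL: the core theorem (cones). -/

namespace Pool.Agent.R178.SL

open Filter Topology

variable {W : Type} [AddCommGroup W] [Module ℝ W]

/-! ### generic statements -/

theorem Gen.mono {H : Submodule ℝ W} {Q R : W → Prop} (h : Gen H Q)
    (hQR : ∀ x ∈ H, Q x → R x) : Gen H R := by
  obtain ⟨T, hT, h⟩ := h
  exact ⟨T, hT, fun x hx hU => hQR x hx (h x hx hU)⟩

theorem Gen.of_forall {H : Submodule ℝ W} {Q : W → Prop} (h : ∀ x ∈ H, Q x) : Gen H Q :=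
  ⟨∅, by simp, fun x hx _ => h x hx⟩

theorem Gen.and {H : Submodule ℝ W} {Q R : W → Prop} (h1 : Gen H Q) (h2 : Gen H R) :
    Gen H (fun x => Q x ∧ R x) := by
  classical
  obtain ⟨T1, hT1, h1⟩ := h1
  obtain ⟨T2, hT2, h2⟩ := h2
  refine ⟨T1 ∪ T2, ?_, ?_⟩
  · intro U hU
    rcases Finset.mem_union.1 hU with h | h
    · exact hT1 U h
    · exact hT2 U h
  · intro x hx hU
    exact ⟨h1 x hx fun U h => hU U (Finset.mem_union_left _ h),
      h2 x hx fun U h => hU U (Finset.mem_union_right _ h)⟩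

theorem Gen.forall_finset {α : Type*} {H : Submodule ℝ W} {s : Finset α} {Q : α → W → Prop}
    (h : ∀ a ∈ s, Gen H (Q a)) : Gen H (fun x => ∀ a ∈ s, Q a x) := by
  classical
  induction s using Finset.induction with
  | empty => exact Gen.of_forall (by simp)
  | insert a s ha ih =>
    have h1 := h a (Finset.mem_insert_self a s)
    have h2 := ih (fun b hb => h b (Finset.mem_insert_of_mem hb))
    refine (h1.and h2).mono (fun x _ hx b hb => ?_)
    rcases Finset.mem_insert.1 hb with rfl | hb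
    · exact hx.1
    · exact hx.2 b hb

theorem Gen.notMem {H U : Submodule ℝ W} (h : ¬ H ≤ U) : Gen H (fun x => x ∉ U) :=
  ⟨{U}, by simpa using h, fun x _ hx => hx U (Finset.mem_singleton_self U)⟩

/-! ### projections along `p` -/

theorem exists_phi (p : W) (K : Submodule ℝ W) (h : p ∉ K) :
    ∃ φ : W →ₗ[ℝ] ℝ, φ p = 1 ∧ ∀ x ∈ K, φ x = 0 := by
  obtain ⟨f, hf, hK⟩ := Submodule.exists_dual_map_eq_bot_of_notMem h inferInstance
  refine ⟨(f p)⁻¹ • f, ?_, ?_⟩
  · rw [LinearMap.smul_apply, smul_eq_mul, inv_mul_cancel₀ hf]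
  · intro x hx
    have : f x ∈ K.map f := Submodule.mem_map_of_mem hx
    rw [hK, Submodule.mem_bot] at this
    rw [LinearMap.smul_apply, this, smul_zero]

open Classical in
/-- a linear functional vanishing on `K` with value `1` at `p` -/
noncomputable def phi (p : W) (K : Submodule ℝ W) : W →ₗ[ℝ] ℝ :=
  if h : p ∉ K then (exists_phi p K h).choose else 0

theorem phi_p {p : W} {K : Submodule ℝ W} (h : p ∉ K) : phi p K p = 1 := by
  unfold phi
  rw [dif_pos h]
  exact (exists_phi p K h).choose_spec.1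

theorem phi_K {p : W} {K : Submodule ℝ W} (h : p ∉ K) {x : W} (hx : x ∈ K) : phi p K x = 0 := by
  unfold phi
  rw [dif_pos h]
  exact (exists_phi p K h).choose_spec.2 x hx

/-- `H = K ⊕ ⟨p⟩` -/
def Adm (p : W) (H K : Submodule ℝ W) : Prop := p ∉ K ∧ K ⊔ Submodule.span ℝ {p} = H

theorem Adm.mem_iff {p : W} {H K : Submodule ℝ W} (h : Adm p H K) {x : W} :
    x ∈ H ↔ ∃ y ∈ K, ∃ a : ℝ, x = y + a • p := by
  rw [← h.2, Submodule.mem_sup]
  constructor
  · rintro ⟨y, hy, z, hz, rfl⟩
    obtain ⟨a, rfl⟩ := Submodule.mem_span_singleton.1 hz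
    exact ⟨y, hy, a, rfl⟩
  · rintro ⟨y, hy, a, rfl⟩
    exact ⟨y, hy, a • p, Submodule.smul_mem _ _ (Submodule.mem_span_singleton_self p), rfl⟩

theorem Adm.le {p : W} {H K : Submodule ℝ W} (h : Adm p H K) : K ≤ H := by
  rw [← h.2]; exact le_sup_left

theorem Adm.p_mem {p : W} {H K : Submodule ℝ W} (h : Adm p H K) : p ∈ H := by
  rw [← h.2]; exact Submodule.mem_sup_right (Submodule.mem_span_singleton_self p)

theorem phi_add {p : W} {K : Submodule ℝ W} (h : p ∉ K) {y : W} (hy : y ∈ K) (a : ℝ) :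
    phi p K (y + a • p) = a := by
  rw [map_add, map_smul, phi_K h hy, phi_p h, zero_add, smul_eq_mul, mul_one]

/-- the projection to `K` along `p` -/
noncomputable def prj (p : W) (K : Submodule ℝ W) (x : W) : W := x - phi p K x • p

theorem prj_mem {p : W} {H K : Submodule ℝ W} (h : Adm p H K) {x : W} (hx : x ∈ H) :
    prj p K x ∈ K := by
  obtain ⟨y, hy, a, rfl⟩ := h.mem_iff.1 hx
  unfold prj
  rw [phi_add h.1 hy, add_sub_cancel_right]
  exact hy

theorem prj_self {p : W} {K : Submodule ℝ W} (h : p ∉ K) {x : W} (hx : x ∈ K) :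
    prj p K x = x := by
  unfold prj
  rw [phi_K h hx, zero_smul, sub_zero]

theorem phi_unique {p : W} {H K : Submodule ℝ W} (h : Adm p H K) {ψ : W →ₗ[ℝ] ℝ}
    (h1 : ψ p = 1) (h0 : ∀ x ∈ K, ψ x = 0) {x : W} (hx : x ∈ H) : phi p K x = ψ x := by
  obtain ⟨y, hy, a, rfl⟩ := h.mem_iff.1 hx
  rw [phi_add h.1 hy, map_add, map_smul, h0 y hy, h1, zero_add, smul_eq_mul, mul_one]

open Classical in
/-- the cone operator -/
noncomputable def Cn (p : W) (K : Submodule ℝ W) : (W → ℝ) →ₗ[ℝ] (W → ℝ) where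
  toFun u x := if 0 < phi p K x then u (prj p K x) else 0
  map_add' u v := by
    ext x
    simp only [Pi.add_apply]
    split_ifs <;> simp
  map_smul' c u := by
    ext x
    simp only [Pi.smul_apply, RingHom.id_apply]
    split_ifs <;> simp

open Classical in
theorem Cn_apply (p : W) (K : Submodule ℝ W) (u : W → ℝ) (x : W) :
    Cn p K u x = if 0 < phi p K x then u (prj p K x) else 0 := rfl

theorem Cn_cone {p : W} {H K : Submodule ℝ W} (h : Adm p H K) {S : Set W} (hp : p ∈ S) {k : ℕ}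
    {u : W → ℝ} (hu : u ∈ KF S k K) : Cn p K u ∈ KF S (k + 1) H := by
  obtain ⟨v, hv, hli, hspan, rfl⟩ := hu
  refine ⟨Fin.cons p v, ?_, ?_, ?_, ?_⟩
  · intro j
    induction j using Fin.cases with
    | zero => exact hp
    | succ j => exact hv j
  · rw [linearIndependent_finCons]
    refine ⟨hli, ?_⟩
    rw [hspan]
    exact h.1
  · rw [Fin.range_cons, Submodule.span_insert, hspan, sup_comm]
    exact h.2
  · ext x
    rw [Cn_apply]
    have hK : ∀ a : Fin k → ℝ, ∑ j, a j • v j ∈ K := by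
      intro a
      rw [← hspan]
      exact Submodule.sum_mem _ fun j _ =>
        Submodule.smul_mem _ _ (Submodule.subset_span ⟨j, rfl⟩)
    have key : x ∈ cone (Fin.cons p v : Fin (k + 1) → W) ↔
        0 < phi p K x ∧ prj p K x ∈ cone v := by
      constructor
      · rintro ⟨a, ha, rfl⟩
        have e : ∑ j, a j • (Fin.cons p v : Fin (k + 1) → W) j =
            (∑ j : Fin k, a j.succ • v j) + a 0 • p := by
          rw [Fin.sum_univ_succ, add_comm]
          rfl
        rw [e]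
        unfold prj
        rw [phi_add h.1 (hK _), add_sub_cancel_right]
        exact ⟨ha 0, fun j => a j.succ, fun j => ha j.succ, rfl⟩
      · rintro ⟨h0, b, hb, hx⟩
        refine ⟨Fin.cons (phi p K x) b, ?_, ?_⟩
        · intro j
          induction j using Fin.cases with
          | zero => exact h0
          | succ j => exact hb j
        · rw [Fin.sum_univ_succ]
          change x = phi p K x • p + ∑ j : Fin k, b j • v j
          rw [← hx]
          unfold prj
          rw [add_sub_cancel]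
    by_cases hx : x ∈ cone (Fin.cons p v : Fin (k + 1) → W)
    · rw [Set.indicator_of_mem hx, if_pos (key.1 hx).1, Set.indicator_of_mem (key.1 hx).2]
    · rw [Set.indicator_of_notMem hx]
      split_ifs with h0
      · rw [Set.indicator_of_notMem]
        intro h2
        exact hx (key.2 ⟨h0, h2⟩)
      · rfl

/-- `prj` as a linear map -/
noncomputable def prjL (p : W) (K : Submodule ℝ W) : W →ₗ[ℝ] W :=
  LinearMap.id - (phi p K).smulRight p

theorem prjL_apply (p : W) (K : Submodule ℝ W) (x : W) : prjL p K x = prj p K x := rfl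

theorem Gen.comp_prj {p : W} {H K : Submodule ℝ W} (h : Adm p H K) {Q : W → Prop}
    (hQ : Gen K Q) : Gen H (fun x => Q (prj p K x)) := by
  classical
  obtain ⟨T, hT, hQ⟩ := hQ
  refine ⟨T.image (fun U => U.comap (prjL p K)), ?_, ?_⟩
  · intro U' hU'
    obtain ⟨U, hU, rfl⟩ := Finset.mem_image.1 hU'
    intro hle
    apply hT U hU
    intro x hx
    have := hle (h.le hx)
    rw [Submodule.mem_comap, prjL_apply, prj_self h.1 hx] at this
    exact this
  · intro x hx hU
    apply hQ _ (prj_mem h hx)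
    intro U hUT hmem
    exact hU _ (Finset.mem_image_of_mem _ hUT) hmem

theorem Gen.perturb {p : W} {H K : Submodule ℝ W} (h : Adm p H K) {Q : W → Prop}
    (hQ : Gen H Q) : Gen K (fun x => ∀ᶠ ε in 𝓝[≠] (0 : ℝ), Q (x + ε • p)) := by
  classical
  obtain ⟨T, hT, hQ⟩ := hQ
  refine ⟨T.filter (fun U => p ∈ U), ?_, ?_⟩
  · intro U hU hle
    obtain ⟨hU1, hU2⟩ := Finset.mem_filter.1 hU
    apply hT U hU1
    rw [← h.2]
    exact sup_le hle ((Submodule.span_singleton_le_iff_mem _ _).2 hU2)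
  · intro x hx hU
    have h1 : ∀ U ∈ T, ∀ᶠ ε in 𝓝[≠] (0 : ℝ), x + ε • p ∉ U := by
      intro U hUT
      by_cases hpU : p ∈ U
      · apply Eventually.of_forall
        intro ε hmem
        apply hU U (Finset.mem_filter.2 ⟨hUT, hpU⟩)
        have := U.sub_mem hmem (U.smul_mem ε hpU)
        rwa [add_sub_cancel_right] at this
      · by_cases hex : ∃ ε₁ : ℝ, x + ε₁ • p ∈ U
        · obtain ⟨ε₁, hε₁⟩ := hex
          have hne : ∀ᶠ ε in 𝓝[≠] (0 : ℝ), ε ≠ ε₁ := by
            by_cases h0 : ε₁ = 0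
            · rw [h0]; exact self_mem_nhdsWithin
            · exact (eventually_ne_nhds (Ne.symm h0)).filter_mono nhdsWithin_le_nhds
          filter_upwards [hne] with ε hε hmem
          apply hpU
          have h2 := U.sub_mem hmem hε₁
          have h3 : x + ε • p - (x + ε₁ • p) = (ε - ε₁) • p := by
            rw [sub_smul]; abel
          rw [h3] at h2
          have h4 := U.smul_mem (ε - ε₁)⁻¹ h2
          rwa [smul_smul, inv_mul_cancel₀ (sub_ne_zero.2 hε), one_smul] at h4
        · push Not at hex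
          exact Eventually.of_forall hex
    have h2 : ∀ᶠ ε in 𝓝[≠] (0 : ℝ), ∀ U ∈ T, x + ε • p ∉ U := (Finset.eventually_all T).2 h1
    filter_upwards [h2] with ε hε
    exact hQ _ (H.add_mem (h.le hx) (H.smul_mem ε h.p_mem)) hε

/-- the total -/
noncomputable def Phi (p : W) : (Submodule ℝ W →₀ (W → ℝ)) →ₗ[ℝ] (W → ℝ) :=
  Finsupp.lsum ℝ (fun K => Cn p K)

theorem Phi_single (p : W) (K : Submodule ℝ W) (u : W → ℝ) :
    Phi p (Finsupp.single K u) = Cn p K u := by
  unfold Phi
  rw [Finsupp.lsum_single]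

theorem Phi_apply (p : W) (g : Submodule ℝ W →₀ (W → ℝ)) (x : W) :
    Phi p g x = ∑ K ∈ g.support, Cn p K (g K) x := by
  unfold Phi
  rw [Finsupp.lsum_apply, Finsupp.sum, Finset.sum_apply]

theorem Adm.eq_of_le {p : W} {H K K₀ : Submodule ℝ W} (h : Adm p H K) (h₀ : Adm p H K₀)
    (hle : K₀ ≤ K) : K₀ = K := by
  apply le_antisymm hle
  intro x hx
  obtain ⟨y, hy, a, rfl⟩ := h₀.mem_iff.1 (h.le hx)
  have h1 := K.sub_mem hx (hle hy)
  rw [add_sub_cancel_left] at h1
  by_cases ha : a = 0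
  · rw [ha, zero_smul, add_zero]; exact hy
  · exfalso
    apply h.1
    have h2 := K.smul_mem a⁻¹ h1
    rwa [smul_smul, inv_mul_cancel₀ ha, one_smul] at h2

theorem Adm.not_le_ker {p : W} {H K K₀ : Submodule ℝ W} (h : Adm p H K) (h₀ : Adm p H K₀)
    (hne : K₀ ≠ K) : ¬ K₀ ≤ LinearMap.ker (phi p K) := by
  intro hle
  apply hne
  apply h.eq_of_le h₀
  intro x hx
  have h1 := hle hx
  rw [LinearMap.mem_ker] at h1
  have h2 := prj_mem h (h₀.le hx)
  unfold prj at h2
  rwa [h1, zero_smul, sub_zero] at h2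

theorem integral_parts {p : W} {H : Submodule ℝ W} {g : Submodule ℝ W →₀ (W → ℝ)}
    (hg : ∀ K ∈ g.support, Adm p H K) (hint : Gen H (fun x => ∃ n : ℤ, Phi p g x = n))
    {K₀ : Submodule ℝ W} (hK₀ : K₀ ∈ g.support) : Gen K₀ (fun x => ∃ n : ℤ, g K₀ x = n) := by
  classical
  have h₀ := hg K₀ hK₀
  have h1 := hint.perturb h₀
  have h2 : Gen K₀ (fun x => ∀ K ∈ g.support.erase K₀, phi p K x ≠ 0) := by
    apply Gen.forall_finset
    intro K hK
    obtain ⟨hne, hK⟩ := Finset.mem_erase.1 hK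
    exact (Gen.notMem ((hg K hK).not_le_ker h₀ hne.symm)).mono (fun x _ hx h => hx h)
  refine (h1.and h2).mono ?_
  rintro x hx ⟨hev, hne⟩
  have e1 : ∀ᶠ ε in 𝓝[>] (0 : ℝ), ∃ n : ℤ, Phi p g (x + ε • p) = n :=
    hev.filter_mono (nhdsWithin_mono _ (fun y hy => ne_of_gt hy))
  have e2 : ∀ᶠ ε in 𝓝[>] (0 : ℝ), ∃ n : ℤ, Phi p g (x + (-ε) • p) = n := by
    have ht : Tendsto (fun ε : ℝ => -ε) (𝓝[>] 0) (𝓝[≠] 0) := by
      apply tendsto_nhdsWithin_iff.2
      constructor
      · have : Tendsto (fun ε : ℝ => -ε) (𝓝 0) (𝓝 (-0)) := tendsto_id.neg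
        rw [neg_zero] at this
        exact this.mono_left nhdsWithin_le_nhds
      · filter_upwards [self_mem_nhdsWithin] with ε hε
        have : (0 : ℝ) < ε := hε
        exact neg_ne_zero.2 this.ne'
    exact ht.eventually hev
  have e3 : ∀ᶠ ε in 𝓝[>] (0 : ℝ), ∀ K ∈ g.support.erase K₀, ε < |phi p K x| := by
    apply (Finset.eventually_all _).2
    intro K hK
    have : (0 : ℝ) < |phi p K x| := abs_pos.2 (hne K hK)
    exact (eventually_lt_nhds this).filter_mono nhdsWithin_le_nhds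
  have e4 : ∀ᶠ ε in 𝓝[>] (0 : ℝ), (0 : ℝ) < ε := self_mem_nhdsWithin
  obtain ⟨ε, ⟨n1, hn1⟩, ⟨n2, hn2⟩, hsm, hpos⟩ := (e1.and (e2.and (e3.and e4))).exists
  refine ⟨n1 - n2, ?_⟩
  push_cast
  rw [← hn1, ← hn2, Phi_apply, Phi_apply, ← Finset.sum_sub_distrib,
    ← Finset.add_sum_erase _ _ hK₀]
  have z : ∑ K ∈ g.support.erase K₀, (Cn p K (g K) (x + ε • p) - Cn p K (g K) (x + (-ε) • p)) =
      0 := by
    apply Finset.sum_eq_zero
    intro K hK
    have hlt := hsm K hK
    have hKp := (hg K (Finset.mem_of_mem_erase hK)).1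
    rw [Cn_apply, Cn_apply]
    unfold prj
    have f1 : phi p K (x + ε • p) = phi p K x + ε := by
      rw [map_add, map_smul, phi_p hKp, smul_eq_mul, mul_one]
    have f2 : phi p K (x + (-ε) • p) = phi p K x - ε := by
      rw [map_add, map_smul, phi_p hKp, smul_eq_mul, mul_one]; ring
    have g1 : x + ε • p - (phi p K x + ε) • p = x - phi p K x • p := by
      rw [add_smul]; abel
    have g2 : x + (-ε) • p - (phi p K x - ε) • p = x - phi p K x • p := by
      rw [sub_smul, neg_smul]; abel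
    rw [f1, f2, g1, g2]
    by_cases hs : 0 < phi p K x
    · rw [abs_of_pos hs] at hlt
      rw [if_pos (by linarith), if_pos (by linarith), sub_self]
    · have hs' : phi p K x ≤ 0 := not_lt.1 hs
      rw [abs_of_nonpos hs'] at hlt
      rw [if_neg (by linarith), if_neg (by linarith), sub_self]
  rw [z, add_zero, Cn_apply, Cn_apply]
  unfold prj
  rw [phi_add h₀.1 hx, phi_add h₀.1 hx, if_pos hpos, if_neg (by linarith), sub_zero,
    add_sub_cancel_right]

end Pool.Agent.R178.SL
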