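import Pool.Agent.R178.SL.Core

set_option autoImplicit false

/-! Project SL: decomposition of a cone and the induction. -/

namespace Pool.Agent.R178.SL

open Filter Topology

variable {W : Type} [AddCommGroup W] [Module ℝ W]

/-- coordinates with respect to a linearly independent family -/
theorem exists_coords {n : ℕ} {v : Fin n → W} (hli : LinearIndependent ℝ v) :
    ∃ L : W →ₗ[ℝ] (Fin n → ℝ), (∀ a : Fin n → ℝ, L (∑ j, a j • v j) = a) ∧
      ∀ x ∈ Submodule.span ℝ (Set.range v), x = ∑ j, L x j • v j := by
  have hker : LinearMap.ker (Fintype.linearCombination ℝ v) = ⊥ := by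
    rw [LinearMap.ker_eq_bot']
    intro a ha
    rw [Fintype.linearCombination_apply] at ha
    ext j
    exact (Fintype.linearIndependent_iff.1 hli) a ha j
  obtain ⟨L, hL⟩ := LinearMap.exists_leftInverse_of_injective _ hker
  have h1 : ∀ a : Fin n → ℝ, L (∑ j, a j • v j) = a := by
    intro a
    have := LinearMap.congr_fun hL a
    rw [LinearMap.comp_apply, Fintype.linearCombination_apply] at this
    exact this
  refine ⟨L, h1, ?_⟩
  intro x hx
  obtain ⟨a, rfl⟩ := (Submodule.mem_span_range_iff_exists_fun ℝ).1 hx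
  rw [h1]

theorem mem_cone_iff {n : ℕ} {v : Fin n → W} {L : W →ₗ[ℝ] (Fin n → ℝ)}
    (h1 : ∀ a : Fin n → ℝ, L (∑ j, a j • v j) = a)
    (h2 : ∀ x ∈ Submodule.span ℝ (Set.range v), x = ∑ j, L x j • v j) {x : W}
    (hx : x ∈ Submodule.span ℝ (Set.range v)) : x ∈ cone v ↔ ∀ j, 0 < L x j := by
  constructor
  · rintro ⟨a, ha, rfl⟩
    rw [h1]
    exact ha
  · intro h
    exact ⟨L x, h, h2 x hx⟩

theorem cone_decomp (hcoord : S_coord) {ℓ : W →ₗ[ℝ] ℝ} {S : Set W} (hS : ∀ s ∈ S, 0 < ℓ s) {k : ℕ}
    {H : Submodule ℝ W} {p : W} (hp : p ∈ S) (hpH : p ∈ H) {u : W → ℝ}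
    (hu : u ∈ KF S (k + 1) H) :
    ∃ g : Submodule ℝ W →₀ (W → ℝ), (∀ K, g K ∈ Submodule.span ℝ (KF S k K)) ∧
      (∀ K ∈ g.support, Adm p H K) ∧ Gen H (fun x => u x = Phi p g x) := by
  classical
  obtain ⟨v, hv, hli, hspan, rfl⟩ := hu
  obtain ⟨L, hL1, hL2⟩ := exists_coords hli
  have hLv : ∀ i j, L (v i) j = if j = i then 1 else 0 := by
    intro i j
    have h := hL1 (Pi.single i 1)
    have e : ∑ m, (Pi.single i 1 : Fin (k + 1) → ℝ) m • v m = v i := by
      rw [Finset.sum_eq_single i]
      · rw [Pi.single_eq_same, one_smul]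
      · intro m _ hm
        rw [Pi.single_eq_of_ne hm, zero_smul]
      · intro h; exact absurd (Finset.mem_univ i) h
    rw [e] at h
    rw [h, Pi.single_apply]
  have hpc := hL2 p (by rw [hspan]; exact hpH)
  -- some coordinate of p is positive
  have hpos : ∃ j, 0 < L p j := by
    by_contra hcon
    push Not at hcon
    have h0 : 0 < ℓ p := hS p hp
    rw [hpc, map_sum] at h0
    have : ∑ j, ℓ (L p j • v j) ≤ 0 := by
      apply Finset.sum_nonpos
      intro j _
      rw [map_smul, smul_eq_mul]
      exact mul_nonpos_of_nonpos_of_nonneg (hcon j) (hS _ (hv j)).le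
    linarith
  -- the facets
  set K : Fin (k + 1) → Submodule ℝ W := fun i =>
    Submodule.span ℝ (Set.range (fun j => v (i.succAbove j))) with hK
  have hKz : ∀ i, ∀ x ∈ K i, L x i = 0 := by
    intro i x hx
    obtain ⟨a, rfl⟩ := (Submodule.mem_span_range_iff_exists_fun ℝ).1 hx
    rw [map_sum, Finset.sum_apply]
    apply Finset.sum_eq_zero
    intro j _
    rw [map_smul, Pi.smul_apply, hLv, if_neg (Fin.succAbove_ne i j).symm, smul_zero]
  have hvH : ∀ i, v i ∈ H := by
    intro i
    rw [← hspan]
    exact Submodule.subset_span ⟨i, rfl⟩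
  have hadm : ∀ i, L p i ≠ 0 → Adm p H (K i) := by
    intro i hi
    refine ⟨fun h => hi (hKz i p h), ?_⟩
    apply le_antisymm
    · apply sup_le
      · rw [hK, Submodule.span_le]
        rintro _ ⟨j, rfl⟩
        exact hvH _
      · rw [Submodule.span_singleton_le_iff_mem]
        exact hpH
    · rw [← hspan, Submodule.span_le]
      rintro _ ⟨j, rfl⟩
      have hall : ∀ m, m ≠ i → v m ∈ K i ⊔ Submodule.span ℝ {p} := by
        intro m hm
        obtain ⟨m', rfl⟩ := Fin.exists_succAbove_eq hm
        exact Submodule.mem_sup_left (Submodule.subset_span ⟨m', rfl⟩)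
      by_cases hj : j = i
      · subst hj
        have e : v j = (L p j)⁻¹ • (p - ∑ m ∈ Finset.univ.erase j, L p m • v m) := by
          have h3 := Finset.add_sum_erase Finset.univ (fun m => L p m • v m) (Finset.mem_univ j)
          rw [← hpc] at h3
          have h4 : p - ∑ m ∈ Finset.univ.erase j, L p m • v m = L p j • v j := by
            rw [sub_eq_iff_eq_add]
            exact h3.symm
          rw [h4, smul_smul, inv_mul_cancel₀ hi, one_smul]
        rw [SetLike.mem_coe, e]
        apply Submodule.smul_mem
        apply Submodule.sub_mem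
        · exact Submodule.mem_sup_right (Submodule.mem_span_singleton_self p)
        · apply Submodule.sum_mem
          intro m hm
          exact Submodule.smul_mem _ _ (hall m (Finset.ne_of_mem_erase hm))
      · exact hall j hj
  -- the pieces
  set w : Fin (k + 1) → (W → ℝ) := fun i =>
    (cone (fun j => v (i.succAbove j))).indicator (fun _ => (1 : ℝ)) with hw
  have hwK : ∀ i, w i ∈ KF S k (K i) := by
    intro i
    exact ⟨fun j => v (i.succAbove j), fun j => hv _,
      hli.comp _ (Fin.succAbove_right_injective), rfl, rfl⟩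
  set sg : Fin (k + 1) → ℝ := fun i => if 0 < L p i then (1 : ℝ) else if L p i < 0 then -1 else 0
    with hsg
  set g : Submodule ℝ W →₀ (W → ℝ) := ∑ i, if L p i ≠ 0 then Finsupp.single (K i) (sg i • w i) else 0
    with hg
  refine ⟨g, ?_, ?_, ?_⟩
  · intro K'
    rw [hg, Finsupp.finsetSum_apply]
    apply Submodule.sum_mem
    intro i _
    split_ifs with h
    · rw [Finsupp.single_apply]
      split_ifs with h'
      · rw [← h']
        exact Submodule.smul_mem _ _ (Submodule.subset_span (hwK i))
      · exact Submodule.zero_mem _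
    · exact Submodule.zero_mem _
  · intro K' hK'
    rw [Finsupp.mem_support_iff] at hK'
    by_contra hcon
    apply hK'
    rw [hg, Finsupp.finsetSum_apply]
    apply Finset.sum_eq_zero
    intro i _
    split_ifs with h
    · rw [Finsupp.single_apply, if_neg]
      intro h'
      apply hcon
      rw [← h']
      exact hadm i h
    · rfl
  · have gen1 : Gen H (fun x => ∀ i ∈ (Finset.univ : Finset (Fin (k + 1))), L x i ≠ 0) := by
      apply Gen.forall_finset
      intro i _
      have : ¬ H ≤ LinearMap.ker ((LinearMap.proj i : (Fin (k + 1) → ℝ) →ₗ[ℝ] ℝ).comp L) := by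
        intro hle
        have h3 := hle (hvH i)
        rw [LinearMap.mem_ker, LinearMap.comp_apply, LinearMap.proj_apply, hLv, if_pos rfl] at h3
        exact one_ne_zero h3
      exact (Gen.notMem this).mono (fun x _ hx h => hx (by
        rw [LinearMap.mem_ker, LinearMap.comp_apply, LinearMap.proj_apply]; exact h))
    have gen2 : Gen H (fun x => ∀ ij ∈ (Finset.univ : Finset (Fin (k + 1) × Fin (k + 1))),
        ij.1 ≠ ij.2 → L p ij.1 ≠ 0 → L x ij.2 - L x ij.1 / L p ij.1 * L p ij.2 ≠ 0) := by
      apply Gen.forall_finset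
      rintro ⟨i, j⟩ _
      by_cases hij : i = j
      · exact Gen.of_forall (fun x _ h => absurd hij h)
      by_cases hpi : L p i = 0
      · exact Gen.of_forall (fun x _ _ h => absurd hpi h)
      have : ¬ H ≤ LinearMap.ker ((LinearMap.proj j : (Fin (k + 1) → ℝ) →ₗ[ℝ] ℝ).comp L -
          (L p j / L p i) • (LinearMap.proj i : (Fin (k + 1) → ℝ) →ₗ[ℝ] ℝ).comp L) := by
        intro hle
        have h3 := hle (hvH j)
        rw [LinearMap.mem_ker, LinearMap.sub_apply, LinearMap.smul_apply, LinearMap.comp_apply,
          LinearMap.comp_apply, LinearMap.proj_apply, LinearMap.proj_apply, hLv, hLv, if_pos rfl,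
          if_neg hij, smul_zero, sub_zero] at h3
        exact one_ne_zero h3
      refine (Gen.notMem this).mono (fun x _ hx _ _ h => hx ?_)
      rw [LinearMap.mem_ker, LinearMap.sub_apply, LinearMap.smul_apply, LinearMap.comp_apply,
          LinearMap.comp_apply, LinearMap.proj_apply, LinearMap.proj_apply, smul_eq_mul]
      rw [← h]
      ring
    refine (gen1.and gen2).mono ?_
    rintro x hx ⟨hx1, hx2⟩
    have hc := hcoord (k + 1) (L x) (L p) hpos (fun i => hx1 i (Finset.mem_univ i))
      (fun i j => hx2 (i, j) (Finset.mem_univ _))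
    have e1 : (cone v).indicator (fun _ => (1 : ℝ)) x = if ∀ j, 0 < L x j then (1 : ℝ) else 0 := by
      rw [Set.indicator_apply]
      have := mem_cone_iff hL1 hL2 (x := x) (by rw [hspan]; exact hx)
      by_cases h : x ∈ cone v
      · rw [if_pos h, if_pos (this.1 h)]
      · rw [if_neg h, if_neg (fun h' => h (this.2 h'))]
    rw [e1, hc, hg, map_sum, Finset.sum_apply]
    apply Finset.sum_congr rfl
    intro i _
    by_cases hi : L p i = 0
    · rw [if_neg (not_not.2 hi), map_zero, Pi.zero_apply, hi]
      simp
    · rw [if_pos hi, Phi_single, map_smul, Pi.smul_apply, smul_eq_mul]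
      congr 1
      have hphi : phi p (K i) x = L x i / L p i := by
        have := phi_unique (hadm i hi)
          (ψ := (L p i)⁻¹ • (LinearMap.proj i : (Fin (k + 1) → ℝ) →ₗ[ℝ] ℝ).comp L) (by
            rw [LinearMap.smul_apply, LinearMap.comp_apply, LinearMap.proj_apply, smul_eq_mul,
              inv_mul_cancel₀ hi]) (by
            intro y hy
            rw [LinearMap.smul_apply, LinearMap.comp_apply, LinearMap.proj_apply, hKz i y hy,
              smul_zero]) hx
        rw [this, LinearMap.smul_apply, LinearMap.comp_apply, LinearMap.proj_apply, smul_eq_mul,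
          div_eq_inv_mul]
      have hy := prj_mem (hadm i hi) hx
      have hLy : ∀ j, L (prj p (K i) x) j = L x j - L x i / L p i * L p j := by
        intro j
        unfold prj
        rw [map_sub, map_smul, hphi]
        rfl
      have hmem : prj p (K i) x ∈ cone (fun j => v (i.succAbove j)) ↔
          ∀ j, j ≠ i → 0 < L x j - L x i / L p i * L p j := by
        constructor
        · rintro ⟨a, ha, he⟩ j hj
          obtain ⟨j', rfl⟩ := Fin.exists_succAbove_eq hj
          rw [← hLy, he, map_sum, Finset.sum_apply, Finset.sum_eq_single j']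
          · rw [map_smul, Pi.smul_apply, hLv, if_pos rfl, smul_eq_mul, mul_one]
            exact ha j'
          · intro m _ hm
            rw [map_smul, Pi.smul_apply, hLv, if_neg, smul_zero]
            intro h
            exact hm (Fin.succAbove_right_injective h).symm
          · intro h; exact absurd (Finset.mem_univ _) h
        · intro h
          obtain ⟨a, ha⟩ := (Submodule.mem_span_range_iff_exists_fun ℝ).1 hy
          refine ⟨a, ?_, ha.symm⟩
          intro j
          have h3 := h (i.succAbove j) (Fin.succAbove_ne i j)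
          rw [← hLy, ← ha, map_sum, Finset.sum_apply, Finset.sum_eq_single j] at h3
          · rw [map_smul, Pi.smul_apply, hLv, if_pos rfl, smul_eq_mul, mul_one] at h3
            exact h3
          · intro m _ hm
            rw [map_smul, Pi.smul_apply, hLv, if_neg, smul_zero]
            intro h
            exact hm (Fin.succAbove_right_injective h).symm
          · intro h; exact absurd (Finset.mem_univ _) h
      rw [Cn_apply, hphi]
      by_cases h0 : 0 < L x i / L p i
      · rw [if_pos h0]
        change _ = (cone (fun j => v (i.succAbove j))).indicator (fun _ => (1 : ℝ)) (prj p (K i) x)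
        rw [Set.indicator_apply]
        by_cases h1 : prj p (K i) x ∈ cone (fun j => v (i.succAbove j))
        · rw [if_pos h1, if_pos ⟨h0, hmem.1 h1⟩]
        · rw [if_neg h1, if_neg]
          rintro ⟨_, h2⟩
          exact h1 (hmem.2 h2)
      · rw [if_neg h0, if_neg]
        rintro ⟨h2, _⟩
        exact h0 h2

theorem span_decomp (hcoord : S_coord) {ℓ : W →ₗ[ℝ] ℝ} {S : Set W} (hS : ∀ s ∈ S, 0 < ℓ s) {k : ℕ}
    {H : Submodule ℝ W} {p : W} (hp : p ∈ S) (hpH : p ∈ H) {f : W → ℝ}
    (hf : f ∈ Submodule.span ℝ (KF S (k + 1) H)) :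
    ∃ g : Submodule ℝ W →₀ (W → ℝ), (∀ K, g K ∈ Submodule.span ℝ (KF S k K)) ∧
      (∀ K ∈ g.support, Adm p H K) ∧ Gen H (fun x => f x = Phi p g x) := by
  induction hf using Submodule.span_induction with
  | mem u hu => exact cone_decomp hcoord hS hp hpH hu
  | zero =>
    refine ⟨0, fun K => Submodule.zero_mem _, ?_, Gen.of_forall ?_⟩
    · intro K hK; rw [Finsupp.support_zero] at hK; exact absurd hK (Finset.notMem_empty K)
    · intro x _; rw [map_zero]
  | add f1 f2 _ _ h1 h2 =>
    obtain ⟨g1, a1, b1, c1⟩ := h1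
    obtain ⟨g2, a2, b2, c2⟩ := h2
    refine ⟨g1 + g2, fun K => Submodule.add_mem _ (a1 K) (a2 K), ?_, ?_⟩
    · intro K hK
      classical
      rcases Finset.mem_union.1 (Finsupp.support_add hK) with h | h
      · exact b1 K h
      · exact b2 K h
    · refine (c1.and c2).mono ?_
      rintro x _ ⟨e1, e2⟩
      rw [map_add, Pi.add_apply, Pi.add_apply, e1, e2]
  | smul c f _ h =>
    obtain ⟨g, a, b, e⟩ := h
    refine ⟨c • g, fun K => Submodule.smul_mem _ _ (a K), ?_, ?_⟩
    · intro K hK
      exact b K (Finsupp.support_smul hK)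
    · refine e.mono ?_
      intro x _ hx
      rw [map_smul, Pi.smul_apply, Pi.smul_apply, hx]

theorem core (hcoord : S_coord) (W : Type) [AddCommGroup W] [Module ℝ W] : S_core W := by
  intro ℓ S hS k
  induction k with
  | zero =>
    intro H f hf hint
    by_cases hH : H = ⊥
    · subst hH
      obtain ⟨T, hT, hint⟩ := hint
      obtain ⟨n, hn⟩ := hint 0 (Submodule.zero_mem _) (fun U hU => absurd bot_le (hT U hU))
      have hmem : (cone (Fin.elim0 : Fin 0 → W)).indicator (fun _ => (1 : ℝ)) ∈ KF S 0 (⊥ : Submodule ℝ W) := by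
        refine ⟨Fin.elim0, fun j => j.elim0, linearIndependent_empty_type, ?_, rfl⟩
        rw [Set.range_eq_empty, Submodule.span_empty]
      refine ⟨n • (cone (Fin.elim0 : Fin 0 → W)).indicator (fun _ => (1 : ℝ)),
        AddSubgroup.zsmul_mem _ (AddSubgroup.subset_closure hmem) n, Gen.of_forall ?_⟩
      intro x hx
      rw [Submodule.mem_bot] at hx
      subst hx
      rw [hn, Pi.smul_apply, Set.indicator_of_mem]
      · simp
      · exact ⟨Fin.elim0, fun j => j.elim0, by simp⟩
    · have he : KF S 0 H = ∅ := by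
        rw [Set.eq_empty_iff_forall_notMem]
        rintro u ⟨v, _, _, hspan, _⟩
        apply hH
        rw [← hspan, Set.range_eq_empty, Submodule.span_empty]
      rw [he, Submodule.span_empty, Submodule.mem_bot] at hf
      exact ⟨0, AddSubgroup.zero_mem _, Gen.of_forall (fun x _ => by rw [hf])⟩
  | succ k ih =>
    intro H f hf hint
    by_cases hne : (KF S (k + 1) H).Nonempty
    · obtain ⟨u, v, hv, _, hspan, _⟩ := hne
      have hp : v 0 ∈ S := hv 0
      have hpH : v 0 ∈ H := by rw [← hspan]; exact Submodule.subset_span ⟨0, rfl⟩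
      obtain ⟨g, hg1, hg2, hg3⟩ := span_decomp hcoord hS hp hpH hf
      have hint2 : Gen H (fun x => ∃ n : ℤ, Phi (v 0) g x = n) := by
        refine (hint.and hg3).mono ?_
        rintro x _ ⟨⟨n, hn⟩, he⟩
        exact ⟨n, by rw [← he, hn]⟩
      have hG : ∀ K, ∃ G ∈ AddSubgroup.closure (KF S k K), K ∈ g.support →
          Gen K (fun x => g K x = G x) := by
        intro K
        by_cases hK : K ∈ g.support
        · obtain ⟨G, hG1, hG2⟩ := ih K (g K) (hg1 K) (integral_parts hg2 hint2 hK)
          exact ⟨G, hG1, fun _ => hG2⟩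
        · exact ⟨0, AddSubgroup.zero_mem _, fun h => absurd h hK⟩
      choose G hG1 hG2 using hG
      refine ⟨∑ K ∈ g.support, Cn (v 0) K (G K), ?_, ?_⟩
      · apply AddSubgroup.sum_mem
        intro K hK
        have hle : AddSubgroup.closure (KF S k K) ≤
            (AddSubgroup.closure (KF S (k + 1) H)).comap (Cn (v 0) K).toAddMonoidHom := by
          rw [AddSubgroup.closure_le]
          intro u hu
          exact AddSubgroup.subset_closure (Cn_cone (hg2 K hK) hp hu)
        exact hle (hG1 K)
      · have h1 : Gen H (fun x => ∀ K ∈ g.support, g K (prj (v 0) K x) = G K (prj (v 0) K x)) := by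
          apply Gen.forall_finset
          intro K hK
          exact (hG2 K hK).comp_prj (hg2 K hK)
        refine (hg3.and h1).mono ?_
        rintro x _ ⟨e1, e2⟩
        rw [e1, Phi_apply, Finset.sum_apply]
        apply Finset.sum_congr rfl
        intro K hK
        rw [Cn_apply, Cn_apply, e2 K hK]
    · rw [Set.not_nonempty_iff_eq_empty] at hne
      rw [hne, Submodule.span_empty, Submodule.mem_bot] at hf
      exact ⟨0, AddSubgroup.zero_mem _, Gen.of_forall (fun x _ => by rw [hf])⟩

end Pool.Agent.R178.SL
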