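import Mathlib

set_option autoImplicit false

/-! Project SL (helper178, MP_8bc176_co): integer-valued real combinations of indicator functions of
simplices with vertices in `S` are integer combinations.  Linear version (cones). -/

namespace Pool.Agent.R178.SL

variable {W : Type} [AddCommGroup W] [Module ℝ W]

/-- the open cone spanned by `v` -/
def cone {k : ℕ} (v : Fin k → W) : Set W :=
  {x | ∃ a : Fin k → ℝ, (∀ j, 0 < a j) ∧ x = ∑ j, a j • v j}

/-- `Q` holds at the points of `H` outside finitely many proper subspaces of `H` -/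
def Gen (H : Submodule ℝ W) (Q : W → Prop) : Prop :=
  ∃ T : Finset (Submodule ℝ W), (∀ U ∈ T, ¬ H ≤ U) ∧ ∀ x ∈ H, (∀ U ∈ T, x ∉ U) → Q x

/-- indicator functions of the open cones over `k` linearly independent vectors of `S` spanning `H` -/
def KF (S : Set W) (k : ℕ) (H : Submodule ℝ W) : Set (W → ℝ) :=
  {u | ∃ v : Fin k → W, (∀ j, v j ∈ S) ∧ LinearIndependent ℝ v ∧
    Submodule.span ℝ (Set.range v) = H ∧ u = (cone v).indicator (fun _ => (1 : ℝ))}

/-- SL-1: the coordinate lemma -/
def S_coord : Prop := ∀ (n : ℕ) (x p : Fin n → ℝ), (∃ j, 0 < p j) → (∀ i, x i ≠ 0) →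
  (∀ i j, i ≠ j → p i ≠ 0 → x j - x i / p i * p j ≠ 0) →
  (if ∀ j, 0 < x j then (1 : ℝ) else 0) =
    ∑ i, (if 0 < p i then (1 : ℝ) else if p i < 0 then -1 else 0) *
      (if 0 < x i / p i ∧ ∀ j, j ≠ i → 0 < x j - x i / p i * p j then 1 else 0)

/-- SL-2: the core theorem -/
def S_core (W : Type) [AddCommGroup W] [Module ℝ W] : Prop :=
  ∀ (ℓ : W →ₗ[ℝ] ℝ) (S : Set W), (∀ s ∈ S, 0 < ℓ s) → ∀ (k : ℕ) (H : Submodule ℝ W),
    ∀ f ∈ Submodule.span ℝ (KF S k H), Gen H (fun x => ∃ n : ℤ, f x = n) →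
    ∃ g ∈ AddSubgroup.closure (KF S k H), Gen H (fun x => f x = g x)

open MeasureTheory

/-- The standard measure `χ_Ω dx` of a set `Ω`. -/
noncomputable def mu {d : ℕ} (Ω : Set (EuclideanSpace ℝ (Fin d))) :
    SignedMeasure (EuclideanSpace ℝ (Fin d)) :=
  volume.withDensityᵥ (Ω.indicator fun _ => (1 : ℝ))

/-- The standard measures of the `d`-simplices with all vertices in `S`. -/
def simplexMeasures {d : ℕ} (S : Set (EuclideanSpace ℝ (Fin d))) :
    Set (SignedMeasure (EuclideanSpace ℝ (Fin d))) :=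
  {m | ∃ v : Fin (d + 1) → EuclideanSpace ℝ (Fin d), (∀ i, v i ∈ S) ∧ AffineIndependent ℝ v ∧
    m = mu (convexHull ℝ (Set.range v))}

/-- `𝔐^Δ(S)`: the real span of the standard measures of the simplices with vertices in `S`. -/
noncomputable def MDelta {d : ℕ} (S : Set (EuclideanSpace ℝ (Fin d))) :
    Submodule ℝ (SignedMeasure (EuclideanSpace ℝ (Fin d))) :=
  Submodule.span ℝ (simplexMeasures S)

/-- `Λ(S)`: the integer combinations of the standard measures of the simplices with vertices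
in `S`. -/
noncomputable def Lam {d : ℕ} (S : Set (EuclideanSpace ℝ (Fin d))) :
    AddSubgroup (SignedMeasure (EuclideanSpace ℝ (Fin d))) :=
  AddSubgroup.closure (simplexMeasures S)

/-- SL-3: the passage to measures -/
def S_final : Prop := ∀ (d : ℕ) (S Ω : Set (EuclideanSpace ℝ (Fin d))),
  S_core (EuclideanSpace ℝ (Fin d) × ℝ) → Bornology.IsBounded Ω → MeasurableSet Ω →
  mu Ω ∈ MDelta S → mu Ω ∈ Lam S

end Pool.Agent.R178.SL
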