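import Pool.Agent.R178.SL.Defs

set_option autoImplicit false

/-! SL-3 (MP_8bc176_co): the passage from cones to signed measures. -/

namespace Pool.Agent.R178.SL.Final

open MeasureTheory Set Topology Module
open scoped Pointwise

variable {d : ℕ}

/-- the Euclidean space -/
abbrev V (d : ℕ) : Type := EuclideanSpace ℝ (Fin d)


/-- the lift of a point to height one -/
def up (x : EuclideanSpace ℝ (Fin d)) : EuclideanSpace ℝ (Fin d) × ℝ := (x, 1)

/-- restriction of a function to height one -/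
def sl (f : EuclideanSpace ℝ (Fin d) × ℝ → ℝ) : EuclideanSpace ℝ (Fin d) → ℝ := fun x => f (x, 1)

lemma affInd_iff (v : Fin (d + 1) → (V d)) :
    AffineIndependent ℝ v ↔ LinearIndependent ℝ (fun i => (v i, (1 : ℝ))) := by
  have key : ∀ g : Fin (d + 1) → ℝ, ∑ i, g i • ((v i, (1 : ℝ)) : (V d) × ℝ) =
      (∑ i, g i • v i, ∑ i, g i) := by
    intro g
    ext1
    · simp [Prod.fst_sum]
    · simp [Prod.snd_sum]
  rw [Fintype.linearIndependent_iff, affineIndependent_iff]
  constructor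
  · intro h g hg i
    rw [key, Prod.mk_eq_zero] at hg
    exact h Finset.univ g hg.2 hg.1 i (Finset.mem_univ i)
  · intro h s w hw hs e he
    have h1 : ∑ i, (fun i => if i ∈ s then w i else 0) i • ((v i, (1 : ℝ)) : (V d) × ℝ) = 0 := by
      rw [key, Prod.mk_eq_zero]
      constructor
      · have : ∀ i, (if i ∈ s then w i else 0) • v i = if i ∈ s then w i • v i else 0 := by
          intro i; split_ifs <;> simp
        simp only [this]
        rw [Finset.sum_ite_mem, Finset.univ_inter]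
        exact hs
      · rw [Finset.sum_ite_mem, Finset.univ_inter]
        exact hw
    have := h _ h1 e
    simpa [he] using this

lemma finrank_W : finrank ℝ ((V d) × ℝ) = d + 1 := by
  rw [Module.finrank_prod, finrank_euclideanSpace_fin, Module.finrank_self]

lemma span_top (v : Fin (d + 1) → (V d) × ℝ) (h : LinearIndependent ℝ v) :
    Submodule.span ℝ (range v) = ⊤ :=
  h.span_eq_top_of_card_eq_finrank' (by rw [Fintype.card_fin, finrank_W])

/-- the section of the cone at height one -/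
lemma mem_cone_iff (v : Fin (d + 1) → (V d)) (x : (V d)) :
    (x, (1 : ℝ)) ∈ cone (fun i => (v i, (1 : ℝ))) ↔
      ∃ a : Fin (d + 1) → ℝ, (∀ j, 0 < a j) ∧ ∑ j, a j = 1 ∧ x = ∑ j, a j • v j := by
  unfold cone
  simp only [mem_ofPred_eq]
  have key : ∀ g : Fin (d + 1) → ℝ, ∑ i, g i • ((v i, (1 : ℝ)) : (V d) × ℝ) =
      (∑ i, g i • v i, ∑ i, g i) := by
    intro g
    ext1
    · simp [Prod.fst_sum]
    · simp [Prod.snd_sum]
  constructor
  · rintro ⟨a, ha, h⟩
    rw [key, Prod.mk.injEq] at h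
    exact ⟨a, ha, h.2.symm, h.1⟩
  · rintro ⟨a, ha, h1, h2⟩
    refine ⟨a, ha, ?_⟩
    rw [key, Prod.mk.injEq]
    exact ⟨h2, h1.symm⟩

lemma section_eq_interior (v : Fin (d + 1) → (V d)) (h : AffineIndependent ℝ v) :
    {x : (V d) | (x, (1 : ℝ)) ∈ cone (fun i => (v i, (1 : ℝ)))} =
      interior (convexHull ℝ (range v)) := by
  have htop : affineSpan ℝ (range v) = ⊤ := by
    rw [h.affineSpan_eq_top_iff_card_eq_finrank_add_one, Fintype.card_fin,
      finrank_euclideanSpace_fin]
  let b : AffineBasis (Fin (d + 1)) ℝ (V d) := ⟨v, h, htop⟩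
  have hb : (b : Fin (d + 1) → (V d)) = v := rfl
  have := b.interior_convexHull
  rw [hb] at this
  rw [this]
  ext x
  simp only [mem_ofPred_eq]
  rw [mem_cone_iff]
  constructor
  · rintro ⟨a, ha, h1, h2⟩ i
    have h3 := b.coord_apply_combination_of_mem (Finset.mem_univ i) h1
    have h4 : (Finset.univ.affineCombination ℝ (b : Fin (d + 1) → (V d))) a = x := by
      rw [Finset.affineCombination_eq_linear_combination _ _ _ h1, h2, hb]
    rw [h4] at h3
    rw [h3]
    exact ha i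
  · intro hx
    refine ⟨fun i => b.coord i x, hx, b.sum_coord_apply_eq_one x, ?_⟩
    have := b.linear_combination_coord_eq_self x
    rw [← hb]
    exact this.symm

lemma sl_cone_ae (v : Fin (d + 1) → (V d)) (h : AffineIndependent ℝ v) :
    sl ((cone (fun i => (v i, (1 : ℝ)))).indicator (fun _ => (1 : ℝ))) =ᵐ[volume]
      (convexHull ℝ (range v)).indicator (fun _ => (1 : ℝ)) := by
  have h1 : sl ((cone (fun i => (v i, (1 : ℝ)))).indicator (fun _ => (1 : ℝ))) =
      (interior (convexHull ℝ (range v))).indicator (fun _ => (1 : ℝ)) := by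
    rw [← section_eq_interior v h]
    ext x
    by_cases hx : (x, (1 : ℝ)) ∈ cone (fun i => (v i, (1 : ℝ)))
    · rw [sl, indicator_of_mem hx]
      exact (indicator_of_mem (s := {x : V d | (x, (1 : ℝ)) ∈ cone fun i => (v i, (1 : ℝ))})
        hx (fun _ => (1 : ℝ))).symm
    · rw [sl, indicator_of_notMem hx]
      exact (indicator_of_notMem (s := {x : V d | (x, (1 : ℝ)) ∈ cone fun i => (v i, (1 : ℝ))})
        hx (fun _ => (1 : ℝ))).symm
  rw [h1]
  exact indicator_ae_eq_of_ae_eq_set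
    (interior_ae_eq_of_null_frontier ((convex_convexHull ℝ _).addHaar_frontier volume))

lemma integrable_hull (v : Fin (d + 1) → (V d)) :
    Integrable ((convexHull ℝ (range v)).indicator (fun _ => (1 : ℝ))) volume := by
  have hc : IsCompact (convexHull ℝ (range v)) := (finite_range v).isCompact_convexHull ℝ
  rw [integrable_indicator_iff hc.measurableSet]
  exact integrableOn_const hc.measure_lt_top.ne

lemma sl_cone_integrable (v : Fin (d + 1) → (V d)) (h : AffineIndependent ℝ v) :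
    Integrable (sl ((cone (fun i => (v i, (1 : ℝ)))).indicator (fun _ => (1 : ℝ)))) volume :=
  (integrable_hull v).congr (sl_cone_ae v h).symm

lemma sl_cone_measure (v : Fin (d + 1) → (V d)) (h : AffineIndependent ℝ v) :
    volume.withDensityᵥ (sl ((cone (fun i => (v i, (1 : ℝ)))).indicator (fun _ => (1 : ℝ)))) =
      mu (convexHull ℝ (range v)) :=
  WithDensityᵥEq.congr_ae (sl_cone_ae v h)

/-- the lifted set -/
def Sup (S : Set (V d)) : Set ((V d) × ℝ) := up '' S

lemma mem_KF (S : Set (V d)) (v : Fin (d + 1) → (V d)) (hv : ∀ i, v i ∈ S) (h : AffineIndependent ℝ v) :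
    (cone (fun i => (v i, (1 : ℝ)))).indicator (fun _ => (1 : ℝ)) ∈
      KF (Sup S) (d + 1) (⊤ : Submodule ℝ ((V d) × ℝ)) :=
  ⟨fun i => (v i, (1 : ℝ)), fun j => ⟨v j, hv j, rfl⟩, (affInd_iff v).1 h,
    span_top _ ((affInd_iff v).1 h), rfl⟩

lemma of_mem_KF (S : Set (V d)) (u : (V d) × ℝ → ℝ)
    (hu : u ∈ KF (Sup S) (d + 1) (⊤ : Submodule ℝ ((V d) × ℝ))) :
    ∃ v : Fin (d + 1) → (V d), (∀ i, v i ∈ S) ∧ AffineIndependent ℝ v ∧
      u = (cone (fun i => (v i, (1 : ℝ)))).indicator (fun _ => (1 : ℝ)) := by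
  obtain ⟨w, hw, hl, -, rfl⟩ := hu
  choose v hv hvw using hw
  have e : w = fun i => (v i, (1 : ℝ)) := by
    ext1 i
    exact (hvw i).symm
  subst e
  exact ⟨v, hv, (affInd_iff v).2 hl, rfl⟩

lemma exists_f (S : Set (V d)) (m : SignedMeasure (V d)) (hm : m ∈ MDelta S) :
    ∃ f ∈ Submodule.span ℝ (KF (Sup S) (d + 1) (⊤ : Submodule ℝ ((V d) × ℝ))),
      Integrable (sl f) volume ∧ m = volume.withDensityᵥ (sl f) := by
  unfold MDelta at hm
  induction hm using Submodule.span_induction with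
  | mem m hm =>
    obtain ⟨v, hv, hi, rfl⟩ := hm
    exact ⟨_, Submodule.subset_span (mem_KF S v hv hi), sl_cone_integrable v hi,
      (sl_cone_measure v hi).symm⟩
  | zero =>
    refine ⟨0, Submodule.zero_mem _, integrable_zero _ _ _, ?_⟩
    have : sl (0 : (V d) × ℝ → ℝ) = 0 := rfl
    rw [this, withDensityᵥ_zero]
  | add m1 m2 _ _ h1 h2 =>
    obtain ⟨f1, hf1, hi1, rfl⟩ := h1
    obtain ⟨f2, hf2, hi2, rfl⟩ := h2
    refine ⟨f1 + f2, Submodule.add_mem _ hf1 hf2, hi1.add hi2, ?_⟩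
    rw [← withDensityᵥ_add hi1 hi2]
    rfl
  | smul a m _ h =>
    obtain ⟨f, hf, hi, rfl⟩ := h
    refine ⟨a • f, Submodule.smul_mem _ a hf, hi.smul a, ?_⟩
    rw [← withDensityᵥ_smul (sl f) a]
    rfl

lemma closure_lam (S : Set (V d)) (g : (V d) × ℝ → ℝ)
    (hg : g ∈ AddSubgroup.closure (KF (Sup S) (d + 1) (⊤ : Submodule ℝ ((V d) × ℝ)))) :
    Integrable (sl g) volume ∧ volume.withDensityᵥ (sl g) ∈ Lam S := by
  induction hg using AddSubgroup.closure_induction with
  | mem u hu =>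
    obtain ⟨v, hv, hi, rfl⟩ := of_mem_KF S u hu
    refine ⟨sl_cone_integrable v hi, ?_⟩
    rw [sl_cone_measure v hi]
    exact AddSubgroup.subset_closure ⟨v, hv, hi, rfl⟩
  | zero =>
    refine ⟨integrable_zero _ _ _, ?_⟩
    have : sl (0 : (V d) × ℝ → ℝ) = 0 := rfl
    rw [this, withDensityᵥ_zero]
    exact AddSubgroup.zero_mem _
  | add f1 f2 _ _ h1 h2 =>
    refine ⟨h1.1.add h2.1, ?_⟩
    have : sl (f1 + f2) = sl f1 + sl f2 := rfl
    rw [this, withDensityᵥ_add h1.1 h2.1]
    exact AddSubgroup.add_mem _ h1.2 h2.2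
  | neg f _ h =>
    refine ⟨h.1.neg, ?_⟩
    have : sl (-f) = -sl f := rfl
    rw [this, withDensityᵥ_neg]
    exact AddSubgroup.neg_mem _ h.2

/-- the local behaviour of `f` outside finitely many proper subspaces -/
def Loc (f : (V d) × ℝ → ℝ) : Prop :=
  ∃ T : Finset (Submodule ℝ ((V d) × ℝ)), (∀ U ∈ T, ¬ (⊤ : Submodule ℝ ((V d) × ℝ)) ≤ U) ∧
    ∀ z : (V d) × ℝ, (∀ U ∈ T, z ∉ U) →
      (∀ᶠ y in 𝓝 z, f y = f z) ∧ (∀ r : ℝ, 0 < r → f (r • z) = f z) ∧ (z.2 ≤ 0 → f z = 0)

lemma loc_cone (v : Fin (d + 1) → (V d)) (h : AffineIndependent ℝ v) :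
    Loc ((cone (fun i => (v i, (1 : ℝ)))).indicator (fun _ => (1 : ℝ))) := by
  classical
  set w : Fin (d + 1) → (V d) × ℝ := fun i => (v i, (1 : ℝ)) with hw
  have hl : LinearIndependent ℝ w := (affInd_iff v).1 h
  let b : Basis (Fin (d + 1)) ℝ ((V d) × ℝ) := Basis.mk hl (span_top w hl).ge
  have hb : ∀ i, b i = w i := fun i => Basis.mk_apply hl _ i
  have hc : ∀ z, z ∈ cone w ↔ ∀ i, 0 < b.coord i z := by
    intro z
    constructor
    · rintro ⟨a, ha, rfl⟩ i
      have : ∑ j, a j • w j = ∑ j, a j • b j := by simp only [hb]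
      rw [this, Basis.coord_apply, Basis.repr_sum_self]
      exact ha i
    · intro hz
      refine ⟨fun i => b.coord i z, hz, ?_⟩
      have := b.sum_repr z
      simp only [hb] at this
      exact this.symm
  have hcont : ∀ i, Continuous (b.coord i) := fun i => (b.coord i).continuous_of_finiteDimensional
  refine ⟨Finset.univ.image fun i => LinearMap.ker (b.coord i), ?_, ?_⟩
  · intro U hU hle
    obtain ⟨i, -, rfl⟩ := Finset.mem_image.1 hU
    have h1 : b i ∈ LinearMap.ker (b.coord i) := hle trivial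
    rw [LinearMap.mem_ker, Basis.coord_apply, Basis.repr_self] at h1
    simp at h1
  · intro z hz
    have hz' : ∀ i, b.coord i z ≠ 0 := by
      intro i h0
      exact hz _ (Finset.mem_image.2 ⟨i, Finset.mem_univ i, rfl⟩) (LinearMap.mem_ker.2 h0)
    refine ⟨?_, ?_, ?_⟩
    · by_cases hzc : z ∈ cone w
      · have hp := (hc z).1 hzc
        have : ∀ᶠ y in 𝓝 z, ∀ i, 0 < b.coord i y := by
          rw [Filter.eventually_all]
          intro i
          exact (hcont i).continuousAt.eventually_const_lt (hp i)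
        filter_upwards [this] with y hy
        rw [indicator_of_mem ((hc y).2 hy), indicator_of_mem hzc]
      · have h1 : ∃ i, b.coord i z < 0 := by
          by_contra hcon
          push Not at hcon
          exact hzc ((hc z).2 fun i => lt_of_le_of_ne (hcon i) (hz' i).symm)
        obtain ⟨i, hi⟩ := h1
        have : ∀ᶠ y in 𝓝 z, b.coord i y < 0 :=
          (hcont i).continuousAt.eventually_lt_const hi
        filter_upwards [this] with y hy
        rw [indicator_of_notMem hzc, indicator_of_notMem]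
        intro hyc
        exact absurd ((hc y).1 hyc i) (not_lt.2 hy.le)
    · intro r hr
      have : r • z ∈ cone w ↔ z ∈ cone w := by
        rw [hc, hc]
        refine forall_congr' fun i => ?_
        rw [map_smul, smul_eq_mul]
        exact mul_pos_iff_of_pos_left hr
      by_cases hzc : z ∈ cone w
      · rw [indicator_of_mem hzc, indicator_of_mem (this.2 hzc)]
      · rw [indicator_of_notMem hzc, indicator_of_notMem (fun h => hzc (this.1 h))]
    · intro hz0
      rw [indicator_of_notMem]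
      rintro ⟨a, ha, rfl⟩
      have : (∑ j, a j • w j).2 = ∑ j, a j := by
        simp [hw, Prod.snd_sum]
      rw [this] at hz0
      have : 0 < ∑ j, a j := Finset.sum_pos (fun j _ => ha j) ⟨0, Finset.mem_univ _⟩
      linarith

lemma loc_span (S : Set (V d)) (f : (V d) × ℝ → ℝ)
    (hf : f ∈ Submodule.span ℝ (KF (Sup S) (d + 1) (⊤ : Submodule ℝ ((V d) × ℝ)))) : Loc f := by
  classical
  induction hf using Submodule.span_induction with
  | mem u hu =>
    obtain ⟨v, hv, hi, rfl⟩ := of_mem_KF S u hu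
    exact loc_cone v hi
  | zero => exact ⟨∅, by simp, fun z _ => by simp⟩
  | add f1 f2 _ _ h1 h2 =>
    obtain ⟨T1, hT1, h1⟩ := h1
    obtain ⟨T2, hT2, h2⟩ := h2
    refine ⟨T1 ∪ T2, ?_, ?_⟩
    · intro U hU
      rcases Finset.mem_union.1 hU with h | h
      · exact hT1 U h
      · exact hT2 U h
    · intro z hz
      obtain ⟨a1, b1, c1⟩ := h1 z fun U hU => hz U (Finset.mem_union_left _ hU)
      obtain ⟨a2, b2, c2⟩ := h2 z fun U hU => hz U (Finset.mem_union_right _ hU)
      refine ⟨?_, ?_, ?_⟩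
      · filter_upwards [a1, a2] with y hy1 hy2
        simp [hy1, hy2]
      · intro r hr
        simp [b1 r hr, b2 r hr]
      · intro hz0
        simp [c1 hz0, c2 hz0]
  | smul a f _ h =>
    obtain ⟨T, hT, h⟩ := h
    refine ⟨T, hT, fun z hz => ?_⟩
    obtain ⟨a1, b1, c1⟩ := h z hz
    refine ⟨?_, ?_, ?_⟩
    · filter_upwards [a1] with y hy
      simp [hy]
    · intro r hr
      simp [b1 r hr]
    · intro hz0
      simp [c1 hz0]

lemma gen_of_ae (f : (V d) × ℝ → ℝ) (hf : Loc f)
    (h : ∀ᵐ x : (V d) ∂volume, ∃ n : ℤ, sl f x = n) :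
    Gen (⊤ : Submodule ℝ ((V d) × ℝ)) (fun z => ∃ n : ℤ, f z = n) := by
  obtain ⟨T, hT, hf⟩ := hf
  refine ⟨T, hT, fun z _ hz => ?_⟩
  by_cases h0 : z.2 ≤ 0
  · exact ⟨0, by rw [(hf z hz).2.2 h0]; simp⟩
  · push Not at h0
    set x : (V d) := z.2⁻¹ • z.1 with hx
    have hxz : ((x, (1 : ℝ)) : (V d) × ℝ) = z.2⁻¹ • z := by
      ext1
      · rfl
      · simp [h0.ne']
    have hzx : z = z.2 • ((x, (1 : ℝ)) : (V d) × ℝ) := by
      rw [hxz, smul_smul, mul_inv_cancel₀ h0.ne', one_smul]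
    have hoff : ∀ U ∈ T, ((x, (1 : ℝ)) : (V d) × ℝ) ∉ U := by
      intro U hU hmem
      apply hz U hU
      rw [hzx]
      exact U.smul_mem _ hmem
    obtain ⟨a1, b1, -⟩ := hf _ hoff
    have hval : f z = f (x, 1) := by
      conv_lhs => rw [hzx]
      exact b1 z.2 h0
    have hcont : Continuous fun y : (V d) => ((y, (1 : ℝ)) : (V d) × ℝ) := by fun_prop
    have hnh : ∀ᶠ y in 𝓝 x, f (y, 1) = f (x, 1) := hcont.continuousAt.eventually a1
    have hdense : Dense {y : (V d) | ∃ n : ℤ, sl f y = n} := Measure.dense_of_ae h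
    obtain ⟨y, ⟨n, hn⟩, hy⟩ := hdense.inter_nhds_nonempty hnh
    refine ⟨n, ?_⟩
    rw [hval, ← hn]
    exact hy.symm

lemma ae_of_gen (Q : (V d) × ℝ → Prop) (h : Gen (⊤ : Submodule ℝ ((V d) × ℝ)) Q) :
    ∀ᵐ x : (V d) ∂volume, Q (x, 1) := by
  obtain ⟨T, hT, h⟩ := h
  have h1 : ∀ U ∈ T, ∀ᵐ x : (V d) ∂volume, ((x, (1 : ℝ)) : (V d) × ℝ) ∉ U := by
    intro U hU
    let F : (V d) →ᵃ[ℝ] (V d) × ℝ :=
      { toFun := fun x => (x, 1)
        linear := LinearMap.inl ℝ (V d) ℝ
        map_vadd' := by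
          intro p v
          ext1
          · simp
          · simp }
    have hne : (U.toAffineSubspace.comap F) ≠ ⊤ := by
      intro htop
      apply hT U hU
      have hall : ∀ x : (V d), ((x, (1 : ℝ)) : (V d) × ℝ) ∈ U := by
        intro x
        have : x ∈ U.toAffineSubspace.comap F := by rw [htop]; trivial
        exact this
      rintro ⟨x, t⟩ -
      have e : ((x, t) : (V d) × ℝ) = ((x, (1 : ℝ)) : (V d) × ℝ) - ((0, (1 : ℝ)) : (V d) × ℝ)
          + t • ((0, (1 : ℝ)) : (V d) × ℝ) := by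
        ext1
        · simp
        · simp
      rw [e]
      exact U.add_mem (U.sub_mem (hall x) (hall 0)) (U.smul_mem _ (hall 0))
    have hnull := Measure.addHaar_affineSubspace (volume : Measure (V d)) _ hne
    rw [ae_iff]
    refine measure_mono_null ?_ hnull
    intro x hx
    simp only [mem_ofPred_eq, not_not] at hx
    exact hx
  have h2 : ∀ᵐ x : (V d) ∂volume, ∀ U ∈ T, ((x, (1 : ℝ)) : (V d) × ℝ) ∉ U := by
    rw [Filter.eventually_all_finset]
    exact h1
  filter_upwards [h2] with x hx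
  exact h _ trivial hx

theorem final : S_final := by
  intro d S Ω hcore hbdd hmeas hΩ
  obtain ⟨f, hf, hfi, hmf⟩ := exists_f S (mu Ω) hΩ
  have hΩi : Integrable (Ω.indicator fun _ => (1 : ℝ)) volume := by
    rw [integrable_indicator_iff hmeas]
    exact integrableOn_const hbdd.measure_lt_top.ne
  have hae : (Ω.indicator fun _ => (1 : ℝ)) =ᵐ[volume] sl f :=
    hΩi.ae_eq_of_withDensityᵥ_eq hfi hmf
  have hint : ∀ᵐ x ∂volume, ∃ n : ℤ, sl f x = n := by
    filter_upwards [hae] with x hx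
    rw [← hx]
    by_cases hxΩ : x ∈ Ω
    · exact ⟨1, by simp [hxΩ]⟩
    · exact ⟨0, by simp [hxΩ]⟩
  have hgen := gen_of_ae f (loc_span S f hf) hint
  obtain ⟨g, hg, hfg⟩ := hcore (LinearMap.snd ℝ _ ℝ) (Sup S) (by
    rintro _ ⟨s, -, rfl⟩
    simp [up]) (d + 1) ⊤ f hf hgen
  obtain ⟨hgi, hgl⟩ := closure_lam S g hg
  have hfg' : sl f =ᵐ[volume] sl g := ae_of_gen _ hfg
  have : mu Ω = volume.withDensityᵥ (sl g) := by
    rw [hmf]
    exact WithDensityᵥEq.congr_ae hfg'
  rw [this]
  exact hgl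

end Pool.Agent.R178.SL.Final
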